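import Pool.Agent.H10.LDV.Stmts
import Pool.Agent.H36.LDV.RTL

/-!
LDV: LTL, the ratio lattice
-/

set_option autoImplicit false

namespace Pool.LDV

open Finset Pool.Agent.H98.ABCR Pool.SHA Pool.BL Pool.RIC.H71R

namespace LTL18

/-- coprime pairs of small slope in one class modulo `q` -/
theorem slope (q U W : ℕ) (hq : 0 < q) (Z : Finset (ℕ × ℕ))
    (hZ : ∀ z ∈ Z, 0 < z.1 ∧ 0 < z.2 ∧ z.2 ≤ W ∧ z.1.Coprime z.2 ∧ z.1 * W ≤ U * z.2)
    (hc : ∀ z ∈ Z, ∀ w ∈ Z, (q : ℤ) ∣ (z.1 : ℤ) * w.2 - w.1 * z.2) :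
    Z.card ≤ U * W / q + 1 := by
  have key : ∀ z ∈ Z, ∀ w ∈ Z, z.1 * W ^ 2 / (z.2 * q) = w.1 * W ^ 2 / (w.2 * q) →
      (z.1 : ℤ) * w.2 - w.1 * z.2 < q := by
    intro z hz w hw h
    obtain ⟨z1, z2, z3, -, -⟩ := hZ z hz
    obtain ⟨w1, w2, w3, -, -⟩ := hZ w hw
    set n := z.1 * W ^ 2 / (z.2 * q) with hn
    have hzq : 0 < z.2 * q := Nat.mul_pos z2 hq
    have hwq : 0 < w.2 * q := Nat.mul_pos w2 hq
    have a1 : z.1 * W ^ 2 < (n + 1) * (z.2 * q) := by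
      have := Nat.lt_mul_div_succ (z.1 * W ^ 2) hzq
      rw [← hn] at this
      rw [mul_comm (n + 1)]
      exact this
    have a2 : n * (w.2 * q) ≤ w.1 * W ^ 2 := by
      rw [h]
      exact Nat.div_mul_le_self _ _
    have hW : 0 < W := lt_of_lt_of_le z2 z3
    have a1' : (z.1 : ℤ) * W ^ 2 < (n + 1) * (z.2 * q) := by exact_mod_cast a1
    have a2' : (n : ℤ) * (w.2 * q) ≤ w.1 * W ^ 2 := by exact_mod_cast a2
    have z2' : (0 : ℤ) < z.2 := by exact_mod_cast z2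
    have w2' : (0 : ℤ) < w.2 := by exact_mod_cast w2
    have z3' : (z.2 : ℤ) ≤ W := by exact_mod_cast z3
    have w3' : (w.2 : ℤ) ≤ W := by exact_mod_cast w3
    have hW' : (0 : ℤ) < W := by exact_mod_cast hW
    have hq' : (0 : ℤ) < q := by exact_mod_cast hq
    have b1 : (z.1 : ℤ) * W ^ 2 * w.2 < (n + 1) * (z.2 * q) * w.2 :=
      mul_lt_mul_of_pos_right a1' w2'
    have b2 : (n : ℤ) * (w.2 * q) * z.2 ≤ w.1 * W ^ 2 * z.2 :=
      mul_le_mul_of_nonneg_right a2' z2'.le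
    have b3 : (z.2 : ℤ) * w.2 ≤ W * W := mul_le_mul z3' w3' w2'.le hW'.le
    have b4 : (z.2 : ℤ) * w.2 * q ≤ W * W * q := mul_le_mul_of_nonneg_right b3 hq'.le
    have b5 : ((z.1 : ℤ) * w.2 - w.1 * z.2) * W ^ 2 < q * W ^ 2 := by nlinarith
    exact lt_of_mul_lt_mul_right b5 (by positivity)
  have hinj : Set.InjOn (fun z : ℕ × ℕ => z.1 * W ^ 2 / (z.2 * q)) (Z : Set (ℕ × ℕ)) := by
    intro z hz w hw h
    have hz := Finset.mem_coe.1 hz
    have hw := Finset.mem_coe.1 hw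
    have k1 := key z hz w hw h
    have k2 := key w hw z hz h.symm
    obtain ⟨z1, z2, z3, z4, -⟩ := hZ z hz
    obtain ⟨w1, w2, w3, w4, -⟩ := hZ w hw
    have k3 : (z.1 : ℤ) * w.2 - w.1 * z.2 = 0 := by
      refine Int.eq_zero_of_abs_lt_dvd (hc z hz w hw) ?_
      rw [abs_lt]
      constructor
      · linarith
      · exact k1
    have k4 : z.1 * w.2 = w.1 * z.2 := by
      have : (z.1 : ℤ) * w.2 = w.1 * z.2 := by linarith
      exact_mod_cast this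
    have d1 : z.1 ∣ w.1 := z4.dvd_of_dvd_mul_right (Dvd.intro _ k4)
    have d2 : w.1 ∣ z.1 := w4.dvd_of_dvd_mul_right (Dvd.intro _ k4.symm)
    have e1 : z.1 = w.1 := Nat.dvd_antisymm d1 d2
    have e2 : z.2 = w.2 := by
      rw [e1] at k4
      exact (Nat.eq_of_mul_eq_mul_left w1 k4).symm
    exact Prod.ext e1 e2
  have hmaps : Set.MapsTo (fun z : ℕ × ℕ => z.1 * W ^ 2 / (z.2 * q)) (Z : Set (ℕ × ℕ))
      ((Finset.range (U * W / q + 1) : Finset ℕ) : Set ℕ) := by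
    intro z hz
    obtain ⟨z1, z2, z3, -, z5⟩ := hZ z (Finset.mem_coe.1 hz)
    refine Finset.mem_coe.2 (Finset.mem_range.2 (Nat.lt_succ_of_le ?_))
    have h1 : z.1 * W ^ 2 ≤ z.2 * (U * W) := by nlinarith
    calc z.1 * W ^ 2 / (z.2 * q) ≤ z.2 * (U * W) / (z.2 * q) := Nat.div_le_div_right h1
      _ = U * W / q := Nat.mul_div_mul_left _ _ z2
  have := Finset.card_le_card_of_injOn _ hmaps hinj
  rwa [Finset.card_range] at this

/-- coprime pairs in one class modulo `q` -/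
theorem cls (q U W : ℕ) (hq : 0 < q) (Z : Finset (ℕ × ℕ))
    (hZ : ∀ z ∈ Z, 0 < z.1 ∧ 0 < z.2 ∧ z.1 ≤ U ∧ z.2 ≤ W ∧ z.1.Coprime z.2)
    (hc : ∀ z ∈ Z, ∀ w ∈ Z, (q : ℤ) ∣ (z.1 : ℤ) * w.2 - w.1 * z.2) :
    Z.card ≤ 2 * (U * W / q + 1) := by
  classical
  have h1 : (Z.filter (fun z => z.1 * W ≤ U * z.2)).card ≤ U * W / q + 1 := by
    refine slope q U W hq _ (fun z hz => ?_) (fun z hz w hw => ?_)
    · rw [mem_filter] at hz
      obtain ⟨a, b, c, d, e⟩ := hZ z hz.1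
      exact ⟨a, b, d, e, hz.2⟩
    · exact hc z (mem_filter.1 hz).1 w (mem_filter.1 hw).1
  have h2 : (Z.filter (fun z => ¬ z.1 * W ≤ U * z.2)).card ≤ U * W / q + 1 := by
    have h3 : ((Z.filter (fun z => ¬ z.1 * W ≤ U * z.2)).image Prod.swap).card =
        (Z.filter (fun z => ¬ z.1 * W ≤ U * z.2)).card :=
      card_image_of_injective _ Prod.swap_injective
    rw [← h3, mul_comm U W]
    refine slope q W U hq _ (fun z hz => ?_) (fun z hz w hw => ?_)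
    · obtain ⟨y, hy, rfl⟩ := mem_image.1 hz
      rw [mem_filter] at hy
      obtain ⟨a, b, c, d, e⟩ := hZ y hy.1
      refine ⟨b, a, c, e.symm, ?_⟩
      have := hy.2
      simp only [Prod.fst_swap, Prod.snd_swap]
      rw [mul_comm y.2, mul_comm W]
      exact (not_le.1 this).le
    · obtain ⟨y, hy, rfl⟩ := mem_image.1 hz
      obtain ⟨x, hx, rfl⟩ := mem_image.1 hw
      have h := hc x (mem_filter.1 hx).1 y (mem_filter.1 hy).1
      have e1 : (y.swap.1 : ℤ) * x.swap.2 - x.swap.1 * y.swap.2 =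
          (x.1 : ℤ) * y.2 - y.1 * x.2 := by
        simp only [Prod.fst_swap, Prod.snd_swap]
        ring
      rw [e1]
      exact h
  have h3 := card_filter_add_card_filter_not (s := Z) (fun z => z.1 * W ≤ U * z.2)
  omega

/-- all classes -/
theorem allcls (h3 : Pool.MED.S_RTS) (q U W B B' e : ℕ) (σ : ℤ) (hq : 0 < q) (he : 0 < e)
    (hB : B.Coprime q) (Z : Finset (ℕ × ℕ))
    (hZ : ∀ z ∈ Z, 0 < z.1 ∧ 0 < z.2 ∧ z.1 ≤ U ∧ z.2 ≤ W ∧ z.1.Coprime z.2 ∧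
      z.1.Coprime q ∧ z.2.Coprime q ∧ (q : ℤ) ∣ ((B * z.1 ^ e : ℕ) : ℤ) - σ * ((B' * z.2 ^ e : ℕ) : ℤ)) :
    Z.card ≤ (2 * e) ^ q.primeFactors.card * (2 * (U * W / q + 1)) := by
  classical
  have : NeZero q := ⟨hq.ne'⟩
  rcases Z.eq_empty_or_nonempty with rfl | ⟨z0, hz0⟩
  · simp
  obtain ⟨-, -, -, -, -, c1, c2, c3⟩ := hZ z0 hz0
  have hun : ∀ n : ℕ, n.Coprime q → (n : ZMod q) * (n : ZMod q)⁻¹ = 1 :=
    fun n hn => ZMod.coe_mul_inv_eq_one n hn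
  -- the class of a pair
  let y : ℕ × ℕ → ZMod q := fun z =>
    (z.1 : ZMod q) * (z.2 : ZMod q)⁻¹ * ((z0.2 : ZMod q) * (z0.1 : ZMod q)⁻¹)
  have hcg : ∀ z ∈ Z, (B : ZMod q) * (z.1 : ZMod q) ^ e = σ * (B' * (z.2 : ZMod q) ^ e) := by
    intro z hz
    obtain ⟨-, -, -, -, -, -, -, h⟩ := hZ z hz
    have h2 := (ZMod.intCast_zmod_eq_zero_iff_dvd _ q).2 h
    push_cast at h2
    exact sub_eq_zero.1 h2
  have hr : ∀ z ∈ Z, (B : ZMod q) * ((z.1 : ZMod q) * (z.2 : ZMod q)⁻¹) ^ e = σ * B' := by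
    intro z hz
    obtain ⟨-, -, -, -, -, -, h7, -⟩ := hZ z hz
    have h1 : ((z.2 : ZMod q) * (z.2 : ZMod q)⁻¹) ^ e = 1 := by rw [hun _ h7, one_pow]
    calc (B : ZMod q) * ((z.1 : ZMod q) * (z.2 : ZMod q)⁻¹) ^ e
        = ((B : ZMod q) * (z.1 : ZMod q) ^ e) * (z.2 : ZMod q)⁻¹ ^ e := by rw [mul_pow]; ring
      _ = σ * B' * ((z.2 : ZMod q) * (z.2 : ZMod q)⁻¹) ^ e := by rw [hcg z hz, mul_pow]; ring
      _ = σ * B' := by rw [h1, mul_one]
  have hs0 : ((z0.1 : ZMod q) * (z0.2 : ZMod q)⁻¹) * ((z0.2 : ZMod q) * (z0.1 : ZMod q)⁻¹) = 1 := by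
    calc ((z0.1 : ZMod q) * (z0.2 : ZMod q)⁻¹) * ((z0.2 : ZMod q) * (z0.1 : ZMod q)⁻¹)
        = ((z0.1 : ZMod q) * (z0.1 : ZMod q)⁻¹) * ((z0.2 : ZMod q) * (z0.2 : ZMod q)⁻¹) := by ring
      _ = 1 := by rw [hun _ c1, hun _ c2, one_mul]
  have hye : ∀ z ∈ Z, y z ^ e = 1 := by
    intro z hz
    have h1 : (B : ZMod q) * y z ^ e = B := by
      calc (B : ZMod q) * y z ^ e
          = ((B : ZMod q) * ((z.1 : ZMod q) * (z.2 : ZMod q)⁻¹) ^ e) *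
              ((z0.2 : ZMod q) * (z0.1 : ZMod q)⁻¹) ^ e := by
            show (B : ZMod q) * ((z.1 : ZMod q) * (z.2 : ZMod q)⁻¹ *
              ((z0.2 : ZMod q) * (z0.1 : ZMod q)⁻¹)) ^ e = _
            rw [mul_pow]; ring
        _ = ((B : ZMod q) * ((z0.1 : ZMod q) * (z0.2 : ZMod q)⁻¹) ^ e) *
              ((z0.2 : ZMod q) * (z0.1 : ZMod q)⁻¹) ^ e := by rw [hr z hz, hr z0 hz0]
        _ = (B : ZMod q) * (((z0.1 : ZMod q) * (z0.2 : ZMod q)⁻¹) *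
              ((z0.2 : ZMod q) * (z0.1 : ZMod q)⁻¹)) ^ e := by rw [mul_pow (_ * _)]; ring
        _ = B := by rw [hs0, one_pow, mul_one]
    calc y z ^ e = ((B : ZMod q) * (B : ZMod q)⁻¹) * y z ^ e := by rw [hun _ hB, one_mul]
      _ = (B : ZMod q)⁻¹ * ((B : ZMod q) * y z ^ e) := by ring
      _ = 1 := by rw [h1, mul_comm, hun _ hB]
  have hY : (Z.image y).card ≤ (2 * e) ^ q.primeFactors.card := by
    refine h3 q e (Z.image y) hq he ?_
    intro w hw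
    obtain ⟨z, hz, rfl⟩ := mem_image.1 hw
    exact hye z hz
  have hfib : ∀ w ∈ Z.image y, (Z.filter (fun z => y z = w)).card ≤ 2 * (U * W / q + 1) := by
    intro w _
    refine cls q U W hq _ (fun z hz => ?_) (fun z hz x hx => ?_)
    · obtain ⟨a, b, c, d, f, -⟩ := hZ z (mem_filter.1 hz).1
      exact ⟨a, b, c, d, f⟩
    · rw [mem_filter] at hz hx
      obtain ⟨-, -, -, -, -, z6, z7, -⟩ := hZ z hz.1
      obtain ⟨-, -, -, -, -, x6, x7, -⟩ := hZ x hx.1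
      have h1 : y z = y x := hz.2.trans hx.2.symm
      have h2 : (z.1 : ZMod q) * (z.2 : ZMod q)⁻¹ = (x.1 : ZMod q) * (x.2 : ZMod q)⁻¹ := by
        have h4 : ∀ a : ZMod q, a * ((z0.2 : ZMod q) * (z0.1 : ZMod q)⁻¹) *
            ((z0.1 : ZMod q) * (z0.2 : ZMod q)⁻¹) = a := by
          intro a
          rw [mul_assoc, mul_comm ((z0.2 : ZMod q) * (z0.1 : ZMod q)⁻¹), hs0, mul_one]
        rw [← h4 ((z.1 : ZMod q) * (z.2 : ZMod q)⁻¹), ← h4 ((x.1 : ZMod q) * (x.2 : ZMod q)⁻¹)]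
        exact congrArg (fun t => t * ((z0.1 : ZMod q) * (z0.2 : ZMod q)⁻¹)) h1
      have h5 : (z.1 : ZMod q) * x.2 = (x.1 : ZMod q) * z.2 := by
        calc (z.1 : ZMod q) * x.2
            = ((z.1 : ZMod q) * x.2) * ((z.2 : ZMod q) * (z.2 : ZMod q)⁻¹) := by
              rw [hun _ z7, mul_one]
          _ = ((z.1 : ZMod q) * (z.2 : ZMod q)⁻¹) * (x.2 * z.2) := by ring
          _ = ((x.1 : ZMod q) * (x.2 : ZMod q)⁻¹) * (x.2 * z.2) := by rw [h2]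
          _ = ((x.1 : ZMod q) * z.2) * ((x.2 : ZMod q) * (x.2 : ZMod q)⁻¹) := by ring
          _ = (x.1 : ZMod q) * z.2 := by rw [hun _ x7, mul_one]
      refine (ZMod.intCast_zmod_eq_zero_iff_dvd _ q).1 ?_
      push_cast
      exact sub_eq_zero.2 h5
  have hmaps : Set.MapsTo y (Z : Set (ℕ × ℕ)) ((Z.image y : Finset (ZMod q)) : Set (ZMod q)) :=
    fun z hz => Finset.mem_coe.2 (Finset.mem_image_of_mem _ (Finset.mem_coe.1 hz))
  calc Z.card = ∑ w ∈ Z.image y, (Z.filter (fun z => y z = w)).card :=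
        Finset.card_eq_sum_card_fiberwise hmaps
    _ ≤ ∑ _w ∈ Z.image y, 2 * (U * W / q + 1) := Finset.sum_le_sum hfib
    _ = (Z.image y).card * (2 * (U * W / q + 1)) := by rw [Finset.sum_const, smul_eq_mul]
    _ ≤ _ := Nat.mul_le_mul_right _ hY

/-- one modulus and one pair of cofactors -/
theorem real_fib (h3 : Pool.MED.S_RTS) (h4 : Pool.FEX.S_OMB) (J : ℕ) (κ ε : ℝ) (hκ : 1 ≤ κ)
    (hε : 0 < ε) : ∃ C : ℝ, 1 ≤ C ∧ ∀ (X g a b : ℝ) (q B B' e : ℕ) (σ : ℤ) (Z : Finset (ℕ × ℕ)),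
    1 ≤ X → X ^ g ≤ q → (q : ℝ) ≤ X ^ κ → 0 < q → 0 < e → e ≤ J → B.Coprime q →
    (∀ z ∈ Z, 0 < z.1 ∧ 0 < z.2 ∧ (z.1 : ℝ) ≤ X ^ a ∧ (z.2 : ℝ) ≤ X ^ b ∧ z.1.Coprime z.2 ∧
      z.1.Coprime q ∧ z.2.Coprime q ∧
      (q : ℤ) ∣ ((B * z.1 ^ e : ℕ) : ℤ) - σ * ((B' * z.2 ^ e : ℕ) : ℤ)) →
    (Z.card : ℝ) ≤ C * X ^ (ε + max 0 (a + b - g)) := by
  have hJ0 : (0 : ℝ) ≤ J := Nat.cast_nonneg _
  have hκ0 : 0 < κ := by linarith
  obtain ⟨C2, hC2, hO⟩ := h4 (2 * J + 1) (ε / κ) (by linarith) (by positivity)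
  refine ⟨C2 * 4, by linarith, ?_⟩
  intro X g a b q B B' e σ Z hX hq1 hq2 hq he heJ hB hZ
  have hX0 : (0 : ℝ) < X := by linarith
  have hqr : (0 : ℝ) < q := by exact_mod_cast hq
  have hXg : 0 < X ^ g := Real.rpow_pos_of_pos hX0 g
  have h5 := allcls h3 q ⌊X ^ a⌋₊ ⌊X ^ b⌋₊ B B' e σ hq he hB Z (by
    intro z hz
    obtain ⟨z1, z2, z3, z4, z5, z6, z7, z8⟩ := hZ z hz
    exact ⟨z1, z2, Nat.le_floor z3, Nat.le_floor z4, z5, z6, z7, z8⟩)
  have h6 : (Z.card : ℝ) ≤ (2 * e : ℝ) ^ q.primeFactors.card *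
      (2 * ((⌊X ^ a⌋₊ * ⌊X ^ b⌋₊ / q : ℕ) + 1)) := by exact_mod_cast h5
  have hom : (2 * e : ℝ) ^ q.primeFactors.card ≤ C2 * X ^ ε := by
    have heJ' : (e : ℝ) ≤ J := by exact_mod_cast heJ
    have he' : (1 : ℝ) ≤ e := by exact_mod_cast he
    calc (2 * e : ℝ) ^ q.primeFactors.card ≤ (2 * J + 1 : ℝ) ^ q.primeFactors.card :=
          pow_le_pow_left₀ (by linarith) (by linarith) _
      _ ≤ (2 * J + 1 : ℝ) ^ (q.primeFactors.card + 1) :=
          pow_le_pow_right₀ (by linarith) (Nat.le_succ _)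
      _ ≤ C2 * (q : ℝ) ^ (ε / κ) := hO q hq
      _ ≤ C2 * (X ^ κ) ^ (ε / κ) :=
          mul_le_mul_of_nonneg_left (Real.rpow_le_rpow hqr.le hq2 (by positivity)) (by linarith)
      _ = C2 * X ^ ε := by
          rw [← Real.rpow_mul hX0.le, mul_div_cancel₀ _ hκ0.ne']
  have hdiv : ((⌊X ^ a⌋₊ * ⌊X ^ b⌋₊ / q : ℕ) : ℝ) ≤ X ^ (max 0 (a + b - g)) := by
    calc ((⌊X ^ a⌋₊ * ⌊X ^ b⌋₊ / q : ℕ) : ℝ) ≤ ((⌊X ^ a⌋₊ * ⌊X ^ b⌋₊ : ℕ) : ℝ) / q :=
          Nat.cast_div_le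
      _ ≤ (X ^ a * X ^ b) / X ^ g := by
          push_cast
          have e1 : (⌊X ^ a⌋₊ : ℝ) ≤ X ^ a := Nat.floor_le (by positivity)
          have e2 : (⌊X ^ b⌋₊ : ℝ) ≤ X ^ b := Nat.floor_le (by positivity)
          exact div_le_div₀ (by positivity)
            (mul_le_mul e1 e2 (Nat.cast_nonneg _) (by positivity)) hXg hq1
      _ = X ^ (a + b - g) := by rw [Real.rpow_sub hX0, Real.rpow_add hX0]
      _ ≤ _ := Real.rpow_le_rpow_of_exponent_le hX (le_max_right _ _)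
  have hone : (1 : ℝ) ≤ X ^ (max 0 (a + b - g)) := Real.one_le_rpow hX (le_max_left _ _)
  calc (Z.card : ℝ) ≤ (2 * e : ℝ) ^ q.primeFactors.card *
        (2 * ((⌊X ^ a⌋₊ * ⌊X ^ b⌋₊ / q : ℕ) + 1)) := h6
    _ ≤ (C2 * X ^ ε) * (4 * X ^ (max 0 (a + b - g))) := by
        refine mul_le_mul hom (by linarith) (by positivity) (by positivity)
    _ = _ := by rw [Real.rpow_add hX0]; ring

/-- number of values of a divisor `kp J K` of a coordinate -/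
theorem kpcount (h2 : S_LAY) {C1 κ δ : ℝ}
    (hT : ∀ (X Y : ℝ) (T : Finset ℕ), 1 ≤ X → 1 ≤ Y →
      (∀ n ∈ T, 0 < n ∧ (n : ℝ) ≤ X ^ κ ∧ (rad n : ℝ) ≤ Y) → (T.card : ℝ) ≤ C1 * X ^ δ * Y)
    (J : ℕ) (X τ : ℝ) (F : Finset (ℕ × ℕ)) (l : Fin 3) (K : Finset ℕ) (p : ℕ → ℝ)
    (hX : 1 ≤ X) (hτ : 0 ≤ τ) (hK : K ⊆ Icc 1 J) (hp : ∀ e, 0 ≤ p e)
    (hF : ∀ v ∈ F, IsTri v ∧ hh v ≤ κ * Real.log X ∧ Prof J X τ p (coord v l)) :
    ((F.image (fun v => kp J K (coord v l))).card : ℝ) ≤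
      C1 * X ^ δ * X ^ (τ + ∑ n ∈ K, p n) := by
  have hX0 : (0 : ℝ) < X := by linarith
  refine hT X _ _ hX (Real.one_le_rpow hX ?_) ?_
  · exact add_nonneg hτ (Finset.sum_nonneg fun e _ => hp e)
  intro n hn
  obtain ⟨v, hv, rfl⟩ := Finset.mem_image.mp hn
  obtain ⟨T1, H, P⟩ := hF v hv
  have hpos := coord_pos T1 l
  obtain ⟨-, -, -, hdd, -⟩ := h2 J (coord v l) hpos
  obtain ⟨hd1, hd2⟩ := hdd K hK
  have hle : kp J K (coord v l) ≤ coord v l := Nat.le_of_dvd hpos hd1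
  refine ⟨Nat.pos_of_dvd_of_pos hd1 hpos, ?_, ?_⟩
  · exact le_trans (by exact_mod_cast hle) (CTL71.size hX T1 H l)
  · rw [hd2, Nat.cast_mul, Nat.cast_prod, Real.rpow_add hX0, Real.rpow_sum_of_pos hX0]
    refine mul_le_mul P.1 ?_ (Finset.prod_nonneg fun e _ => Nat.cast_nonneg _) (by positivity)
    exact Finset.prod_le_prod (fun e _ => Nat.cast_nonneg _) fun e he => P.2 e (hK he)

/-- the row for `j = i + 1`, `k = i + 2` -/
theorem core (h1 : S_LAY) (h2 : Pool.RIC.S_CNT) (h3 : Pool.MED.S_RTS) (h4 : Pool.FEX.S_OMB)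
    (J : ℕ) (κ ε : ℝ) (hκ : 1 ≤ κ) (hε : 0 < ε) : ∃ C : ℝ, 1 ≤ C ∧
    ∀ (X τ g : ℝ) (F : Finset (ℕ × ℕ)) (i : Fin 3) (K : Finset ℕ) (e : ℕ) (p : Fin 3 → ℕ → ℝ),
    1 ≤ X → 0 ≤ τ → K ⊆ Icc 1 J → e ∈ Icc 1 J → (∀ l e, 0 ≤ p l e ∧ p l e ≤ 2) →
    (∀ v ∈ F, IsTri v ∧ hh v ≤ κ * Real.log X ∧ (∀ l, Prof J X τ (p l) (coord v l)) ∧
      X ^ g ≤ (kp J K (coord v i) : ℝ)) →
    (F.card : ℝ) ≤ C * X ^ (ε + 4 * τ + ∑ n ∈ K, p i n +
      (∑ n ∈ Icc 1 J, p (i + 1) n - p (i + 1) e) +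
      (∑ n ∈ Icc 1 J, p (i + 2) n - p (i + 2) e) + max 0 (p (i + 1) e + p (i + 2) e - g)) := by
  classical
  obtain ⟨C1, hC1, hT⟩ := h2 κ (ε / 8) (by linarith) (by linarith)
  obtain ⟨C2, hC2, hR⟩ := real_fib h3 h4 J κ (ε / 8) hκ (by linarith)
  refine ⟨C1 * C1 * C1 * C2, ?_, ?_⟩
  · exact one_le_mul_of_one_le_of_one_le (one_le_mul_of_one_le_of_one_le
      (one_le_mul_of_one_le_of_one_le hC1 hC1) hC1) hC2
  intro X τ g F i K e p hX hτ hK he hp hF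
  have hX0 : (0 : ℝ) < X := by linarith
  have he' := mem_Icc.1 he
  obtain ⟨σ, hσ, hdv, hinj⟩ := sgn i
  set E := (Icc 1 J).erase e with hE
  have hEs : E ⊆ Icc 1 J := Finset.erase_subset _ _
  set key : ℕ × ℕ → ℕ × ℕ × ℕ := fun v =>
    (kp J K (coord v i), kp J E (coord v (i + 1)), kp J E (coord v (i + 2))) with hkey
  have hsum : ∀ l : Fin 3, ∑ n ∈ E, p l n = ∑ n ∈ Icc 1 J, p l n - p l e := by
    intro l
    rw [← Finset.add_sum_erase _ _ he]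
    ring
  have c0 := kpcount h1 hT J X τ F i K (p i) hX hτ hK (fun e => (hp i e).1)
    (fun v hv => ⟨(hF v hv).1, (hF v hv).2.1, (hF v hv).2.2.1 i⟩)
  have c1 := kpcount h1 hT J X τ F (i + 1) E (p (i + 1)) hX hτ hEs (fun e => (hp _ e).1)
    (fun v hv => ⟨(hF v hv).1, (hF v hv).2.1, (hF v hv).2.2.1 _⟩)
  have c2 := kpcount h1 hT J X τ F (i + 2) E (p (i + 2)) hX hτ hEs (fun e => (hp _ e).1)
    (fun v hv => ⟨(hF v hv).1, (hF v hv).2.1, (hF v hv).2.2.1 _⟩)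
  rw [hsum] at c1 c2
  set T0 := F.image (fun v => kp J K (coord v i)) with hT0
  set T1 := F.image (fun v => kp J E (coord v (i + 1))) with hT1
  set T2 := F.image (fun v => kp J E (coord v (i + 2))) with hT2
  have hmaps : Set.MapsTo key (F : Set (ℕ × ℕ))
      ((T0 ×ˢ (T1 ×ˢ T2) : Finset (ℕ × ℕ × ℕ)) : Set (ℕ × ℕ × ℕ)) := by
    intro v hv
    have hv := Finset.mem_coe.1 hv
    exact Finset.mem_coe.2 (Finset.mem_product.2 ⟨Finset.mem_image_of_mem _ hv,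
      Finset.mem_product.2 ⟨Finset.mem_image_of_mem _ hv, Finset.mem_image_of_mem _ hv⟩⟩)
  set b : ℝ := C2 * X ^ (ε / 8 + max 0 (p (i + 1) e + p (i + 2) e - g)) with hb
  have hb0 : 0 ≤ b := by rw [hb]; positivity
  have hfib : ∀ t ∈ T0 ×ˢ (T1 ×ˢ T2),
      (((F.filter (fun v => key v = t)).card : ℕ) : ℝ) ≤ b := by
    rintro ⟨q, B, B'⟩ -
    set G := F.filter (fun v => key v = (q, B, B')) with hG
    rcases G.eq_empty_or_nonempty with hne | ⟨v0, hv0⟩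
    · rw [hne]
      simpa using hb0
    have hGm : ∀ v ∈ G, v ∈ F ∧ kp J K (coord v i) = q ∧ kp J E (coord v (i + 1)) = B ∧
        kp J E (coord v (i + 2)) = B' := by
      intro v hv
      rw [hG, mem_filter] at hv
      have h := hv.2
      simp only [hkey, Prod.mk.injEq] at h
      exact ⟨hv.1, h.1, h.2.1, h.2.2⟩
    -- facts about the members
    have hfact : ∀ v ∈ G, 0 < q ∧ q ∣ coord v i ∧ B ∣ coord v (i + 1) ∧
        B * lay (coord v (i + 1)) e ^ e = coord v (i + 1) ∧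
        B' * lay (coord v (i + 2)) e ^ e = coord v (i + 2) := by
      intro v hv
      obtain ⟨m1, m2, m3, m4⟩ := hGm v hv
      have T := (hF v m1).1
      obtain ⟨-, -, -, d0, -⟩ := h1 J (coord v i) (coord_pos T i)
      obtain ⟨-, -, -, d1, l1⟩ := h1 J (coord v (i + 1)) (coord_pos T (i + 1))
      obtain ⟨-, -, -, -, l2⟩ := h1 J (coord v (i + 2)) (coord_pos T (i + 2))
      have dq := (d0 K hK).1
      rw [m2] at dq
      have dB := (d1 E hEs).1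
      rw [m3] at dB
      have f1 := (l1 e).2.2.2 he
      have f2 := (l2 e).2.2.2 he
      rw [← hE, m3] at f1
      rw [← hE, m4] at f2
      exact ⟨Nat.pos_of_dvd_of_pos dq (coord_pos T i), dq, dB, f1, f2⟩
    have hcardG : G.card =
        (G.image (fun v => (lay (coord v (i + 1)) e, lay (coord v (i + 2)) e))).card := by
      rw [Finset.card_image_of_injOn]
      intro v hv v' hv' h
      have hv := Finset.mem_coe.1 hv
      have hv' := Finset.mem_coe.1 hv'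
      simp only [Prod.mk.injEq] at h
      obtain ⟨-, -, -, f1, f2⟩ := hfact v hv
      obtain ⟨-, -, -, f1', f2'⟩ := hfact v' hv'
      refine hinj v v' ?_ ?_
      · rw [← f1, ← f1', h.1]
      · rw [← f2, ← f2', h.2]
    rw [hcardG, hb]
    obtain ⟨q0, dq0, dB0, -, -⟩ := hfact v0 hv0
    obtain ⟨m1, m2, -, -⟩ := hGm v0 hv0
    obtain ⟨T, H, -, Q⟩ := hF v0 m1
    rw [m2] at Q
    refine hR X g (p (i + 1) e) (p (i + 2) e) q B B' e σ _ hX Q ?_ q0 he'.1 he'.2 ?_ ?_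
    · have hle : q ≤ coord v0 i := Nat.le_of_dvd (coord_pos T i) dq0
      exact le_trans (by exact_mod_cast hle) (CTL71.size hX T H i)
    · exact ((cop T i).1.coprime_dvd_left dB0).coprime_dvd_right dq0
    intro z hz
    obtain ⟨v, hv, rfl⟩ := Finset.mem_image.mp hz
    obtain ⟨-, dq, dB, f1, f2⟩ := hfact v hv
    obtain ⟨n1, -, -, -⟩ := hGm v hv
    obtain ⟨T', H', P, -⟩ := hF v n1
    obtain ⟨-, -, -, -, l1⟩ := h1 J (coord v (i + 1)) (coord_pos T' (i + 1))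
    obtain ⟨-, -, -, -, l2⟩ := h1 J (coord v (i + 2)) (coord_pos T' (i + 2))
    have g1 : lay (coord v (i + 1)) e ^ e ∣ coord v (i + 1) := (l1 e).2.2.1 he'.1
    have g2 : lay (coord v (i + 2)) e ^ e ∣ coord v (i + 2) := (l2 e).2.2.1 he'.1
    have g1' : lay (coord v (i + 1)) e ∣ coord v (i + 1) :=
      (dvd_pow_self _ (by omega)).trans g1
    have g2' : lay (coord v (i + 2)) e ∣ coord v (i + 2) :=
      (dvd_pow_self _ (by omega)).trans g2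
    have hcop : (coord v (i + 1)).Coprime (coord v (i + 2)) := by
      have h := (cop T' (i + 1)).1
      rw [add_assoc] at h
      exact h.symm
    refine ⟨(l1 e).1, (l2 e).1, (P _).2 e he, (P _).2 e he, ?_, ?_, ?_, ?_⟩
    · exact (hcop.coprime_dvd_left g1').coprime_dvd_right g2'
    · exact ((cop T' i).1.coprime_dvd_left g1').coprime_dvd_right dq
    · exact ((cop T' i).2.coprime_dvd_left g2').coprime_dvd_right dq
    · show (q : ℤ) ∣ ((B * lay (coord v (i + 1)) e ^ e : ℕ) : ℤ) -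
        σ * ((B' * lay (coord v (i + 2)) e ^ e : ℕ) : ℤ)
      rw [f1, f2]
      have : (q : ℤ) ∣ (coord v i : ℤ) := by exact_mod_cast dq
      exact this.trans (hdv v)
  have hsum' : (F.card : ℝ) ≤ (T0.card * (T1.card * T2.card)) * b := by
    rw [Finset.card_eq_sum_card_fiberwise hmaps]
    push_cast
    calc ∑ q ∈ T0 ×ˢ (T1 ×ˢ T2), ((F.filter (fun v => key v = q)).card : ℝ)
        ≤ ∑ _q ∈ T0 ×ˢ (T1 ×ˢ T2), b := Finset.sum_le_sum hfib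
      _ = _ := by
        rw [Finset.sum_const, nsmul_eq_mul, Finset.card_product, Finset.card_product]
        push_cast
        ring
  refine hsum'.trans ((mul_le_mul_of_nonneg_right (mul_le_mul c0 (mul_le_mul c1 c2
    (Nat.cast_nonneg _) (by positivity)) (by positivity) (by positivity)) hb0).trans ?_)
  have key2 : ∀ a b c d f g h : ℝ, C1 * X ^ a * X ^ b * (C1 * X ^ a * X ^ c *
      (C1 * X ^ a * X ^ d)) * (C2 * X ^ f) = C1 * C1 * C1 * C2 * X ^ (a + a + a + b + c + d + f) := by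
    intro a b c d f g h
    rw [Real.rpow_add hX0, Real.rpow_add hX0, Real.rpow_add hX0, Real.rpow_add hX0,
      Real.rpow_add hX0, Real.rpow_add hX0]
    ring
  rw [hb, key2 _ _ _ _ _ 0 0]
  refine mul_le_mul_of_nonneg_left (Real.rpow_le_rpow_of_exponent_le hX ?_) (by positivity)
  linarith

end LTL18

open LTL18

theorem ltl_thm (h1 : S_LAY) (h2 : Pool.RIC.S_CNT) (h3 : Pool.MED.S_RTS) (h4 : Pool.FEX.S_OMB) :
    S_LTL := by
  intro J κ ε hκ hε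
  obtain ⟨C, hC, hc⟩ := core h1 h2 h3 h4 J κ ε hκ hε
  refine ⟨C, hC, ?_⟩
  intro X τ g F i j k K e p hX hτ _ hij hik hjk hK he hp hF
  have hall : ∀ i j k : Fin 3, i ≠ j → i ≠ k → j ≠ k →
      (j = i + 1 ∧ k = i + 2) ∨ (j = i + 2 ∧ k = i + 1) := by decide
  have h := hc X τ g F i K e p hX hτ hK he hp hF
  rcases hall i j k hij hik hjk with ⟨rfl, rfl⟩ | ⟨rfl, rfl⟩
  · exact h
  · refine h.trans (le_of_eq ?_)
    rw [add_comm (p (i + 2) e)]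
    congr 2
    ring

end Pool.LDV
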